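import Mathlib

/-!
# Distributed spectral pairs which are not spectral pairs

For every `t ≥ 1` and `M = 24 t` the sets `A = {0, 3, 18 t, 18 t + 3}` and `B = {0, 4 t, 16 t, 20 t}`
in `{0, ..., M - 1}` form a distributed spectral pair which is a spectral pair neither in `ℤ_M` nor in
`ℤ_(M²)`.

The mask of `A` is `(1 + z ^ 3) (1 + z ^ (18 t))`.  At `c / M` it vanishes for `c ≡ 4 t` modulo `8 t`;
this covers all differences of elements of `B` except `± 16 t`.  At `c / M ^ 2 + d / M` with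
`c = ± 16 t` and `d` divisible by `4 t` the second factor vanishes.
-/

set_option autoImplicit false

namespace Pool.Agent.Results.MP_2c87a3_an.MultiplesOfTwentyFour

open Complex

/-- The Fourier transform of the uniform probability measure on the finite set `E` of integers. -/
noncomputable def nuHat (E : Finset ℤ) (ξ : ℝ) : ℂ :=
  1 / (E.card : ℂ) * ∑ a ∈ E, exp (-(2 * Real.pi * I * ξ * a))

/-- The columns `b ∈ B` of the matrix `(e^(2 π i a b / N))`, `a ∈ A`, `b ∈ B`, are pairwise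
orthogonal. -/
def SpectralPair (N : ℕ) (A B : Finset ℤ) : Prop :=
  ∀ b ∈ B, ∀ b' ∈ B, b ≠ b' →
    ∑ a ∈ A, exp (2 * Real.pi * I * a * b / N) * (starRingEnd ℂ) (exp (2 * Real.pi * I * a * b' / N)) = 0

/-- `(A, B)` is a distributed spectral pair in `{0, ..., M - 1}` (apart from the conditions that `A`
and `B` are subsets of `{0, ..., M - 1}` with the same number of elements, which is more than one and
less than `M`). -/
def Distributed (M : ℕ) (A B : Finset ℤ) : Prop :=
  ∀ b₁ ∈ B, ∀ b₁' ∈ B, b₁ ≠ b₁' →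
    nuHat A (((b₁ : ℝ) - b₁') / M) = 0 ∨
    ∀ b₂ ∈ B, ∀ b₂' ∈ B, nuHat A (((b₁ : ℝ) - b₁') / (M : ℝ) ^ 2 + ((b₂ : ℝ) - b₂') / M) = 0

/-- `e^(-2 π i x)` -/
noncomputable def ee (x : ℝ) : ℂ := exp (-(2 * Real.pi * I * x))

theorem ee_add (x y : ℝ) : ee (x + y) = ee x * ee y := by
  unfold ee
  rw [← exp_add]
  congr 1
  push_cast
  ring

theorem ee_zero : ee 0 = 1 := by simp [ee]

theorem ee_int (k : ℤ) : ee k = 1 := by
  unfold ee
  rw [Complex.exp_eq_one_iff]
  exact ⟨-k, by push_cast; ring⟩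

theorem ee_half : ee (1 / 2) = -1 := by
  unfold ee
  have : -(2 * (Real.pi : ℂ) * I * ((1 / 2 : ℝ) : ℂ)) = -(Real.pi * I) := by push_cast; ring
  rw [this, Complex.exp_neg, Complex.exp_pi_mul_I]
  norm_num

/-- `e^(-2 π i x) = -1` exactly if `x` is a half-integer -/
theorem ee_eq_neg_one (x : ℝ) : ee x = -1 ↔ ∃ k : ℤ, x = k + 1 / 2 := by
  constructor
  · intro h
    have h1 : ee (x - 1 / 2) = 1 := by
      have h2 : ee (x - 1 / 2) * ee (1 / 2) = ee x := by rw [← ee_add]; congr 1; ring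
      rw [ee_half, h] at h2
      have : ee (x - 1 / 2) = - (ee (x - 1 / 2) * -1) := by ring
      rw [this, h2]; norm_num
    unfold ee at h1
    rw [Complex.exp_eq_one_iff] at h1
    obtain ⟨n, hn⟩ := h1
    refine ⟨-n, ?_⟩
    have h3 : (2 * Real.pi * I : ℂ) * (((x - 1 / 2 : ℝ) : ℂ) + n) = 0 := by
      linear_combination -hn
    have h4 : (2 * Real.pi * I : ℂ) ≠ 0 := by
      simp [Real.pi_ne_zero]
    have h5 := (mul_eq_zero.mp h3).resolve_left h4
    have h6 : (x - 1 / 2 : ℝ) + n = 0 := by exact_mod_cast h5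
    push_cast
    linarith
  · rintro ⟨k, rfl⟩
    rw [ee_add, ee_int, ee_half, one_mul]

/-- the set `{0, 3, 18 t, 18 t + 3}` -/
def setA (t : ℕ) : Finset ℤ := {0, 3, 18 * (t : ℤ), 18 * (t : ℤ) + 3}

/-- the set `{0, 4 t, 16 t, 20 t}` -/
def setB (t : ℕ) : Finset ℤ := {0, 4 * (t : ℤ), 16 * (t : ℤ), 20 * (t : ℤ)}

theorem sum_setA {t : ℕ} (ht : 1 ≤ t) (f : ℤ → ℂ) :
    ∑ a ∈ setA t, f a = f 0 + f 3 + f (18 * t) + f (18 * t + 3) := by
  unfold setA
  have h0 : (1 : ℤ) ≤ t := by exact_mod_cast ht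
  rw [Finset.sum_insert, Finset.sum_insert, Finset.sum_insert, Finset.sum_singleton]
  · ring
  · simp
  · simp only [Finset.mem_insert, Finset.mem_singleton]; omega
  · simp only [Finset.mem_insert, Finset.mem_singleton]; omega

theorem card_setA {t : ℕ} (ht : 1 ≤ t) : (setA t).card = 4 := by
  unfold setA
  have h0 : (1 : ℤ) ≤ t := by exact_mod_cast ht
  rw [Finset.card_insert_of_notMem, Finset.card_insert_of_notMem, Finset.card_insert_of_notMem,
    Finset.card_singleton]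
  · simp
  · simp only [Finset.mem_insert, Finset.mem_singleton]; omega
  · simp only [Finset.mem_insert, Finset.mem_singleton]; omega

theorem card_setB {t : ℕ} (ht : 1 ≤ t) : (setB t).card = 4 := by
  unfold setB
  have h0 : (1 : ℤ) ≤ t := by exact_mod_cast ht
  rw [Finset.card_insert_of_notMem, Finset.card_insert_of_notMem, Finset.card_insert_of_notMem,
    Finset.card_singleton]
  · simp only [Finset.mem_singleton]; omega
  · simp only [Finset.mem_insert, Finset.mem_singleton]; omega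
  · simp only [Finset.mem_insert, Finset.mem_singleton]; omega

theorem mask {t : ℕ} (ht : 1 ≤ t) (ξ : ℝ) :
    ∑ a ∈ setA t, exp (-(2 * Real.pi * I * ξ * a)) = (1 + ee (3 * ξ)) * (1 + ee (18 * t * ξ)) := by
  have h : ∀ a : ℤ, exp (-(2 * Real.pi * I * ξ * a)) = ee (a * ξ) := by
    intro a
    unfold ee
    congr 1
    push_cast
    ring
  simp only [h]
  rw [sum_setA ht]
  have h1 : ee (((18 * (t : ℤ) + 3 : ℤ) : ℝ) * ξ) = ee (3 * ξ) * ee (18 * t * ξ) := by
    rw [← ee_add]; congr 1; push_cast; ring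
  rw [h1]
  push_cast
  rw [zero_mul, ee_zero]
  ring

theorem mask_zero {t : ℕ} (ht : 1 ≤ t) (ξ : ℝ) :
    ∑ a ∈ setA t, exp (-(2 * Real.pi * I * ξ * a)) = 0 ↔
      (∃ k : ℤ, 3 * ξ = k + 1 / 2) ∨ ∃ k : ℤ, 18 * t * ξ = k + 1 / 2 := by
  rw [mask ht, mul_eq_zero, ← ee_eq_neg_one, ← ee_eq_neg_one]
  constructor
  · rintro (h | h)
    · exact Or.inl (eq_neg_of_add_eq_zero_right h)
    · exact Or.inr (eq_neg_of_add_eq_zero_right h)
  · rintro (h | h)
    · left; rw [h]; ring
    · right; rw [h]; ring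

theorem nuHat_zero {t : ℕ} (ht : 1 ≤ t) (ξ : ℝ) : nuHat (setA t) ξ = 0 ↔
      (∃ k : ℤ, 3 * ξ = k + 1 / 2) ∨ ∃ k : ℤ, 18 * t * ξ = k + 1 / 2 := by
  unfold nuHat
  rw [mul_eq_zero, mask_zero ht]
  constructor
  · rintro (h | h)
    · rw [card_setA ht] at h; norm_num at h
    · exact h
  · exact Or.inr

theorem spectral_iff {t : ℕ} (ht : 1 ≤ t) {N : ℕ} (b b' : ℤ) :
    ∑ a ∈ setA t, exp (2 * Real.pi * I * a * b / N) *
        (starRingEnd ℂ) (exp (2 * Real.pi * I * a * b' / N)) = 0 ↔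
      (∃ k : ℤ, 3 * (((b' : ℝ) - b) / N) = k + 1 / 2) ∨
        ∃ k : ℤ, 18 * t * (((b' : ℝ) - b) / N) = k + 1 / 2 := by
  rw [← mask_zero ht]
  have h : ∀ a : ℤ, exp (2 * Real.pi * I * a * b / N) *
      (starRingEnd ℂ) (exp (2 * Real.pi * I * a * b' / N)) =
      exp (-(2 * Real.pi * I * ((((b' : ℝ) - b) / N : ℝ) : ℂ) * a)) := by
    intro a
    rw [← Complex.exp_conj, ← Complex.exp_add]
    congr 1
    simp only [map_div₀, map_mul, map_ofNat, Complex.conj_ofReal, Complex.conj_I, map_intCast,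
      map_natCast]
    push_cast
    ring
  simp only [h]

theorem mem_setB {t : ℕ} {b : ℤ} (hb : b ∈ setB t) :
    ∃ j : ℤ, b = 4 * t * j ∧ (j = 0 ∨ j = 1 ∨ j = 4 ∨ j = 5) := by
  unfold setB at hb
  simp only [Finset.mem_insert, Finset.mem_singleton] at hb
  rcases hb with h | h | h | h
  · exact ⟨0, by rw [h]; ring, by tauto⟩
  · exact ⟨1, by rw [h]; ring, by tauto⟩
  · exact ⟨4, by rw [h]; ring, by tauto⟩
  · exact ⟨5, by rw [h]; ring, by tauto⟩

theorem distributed {t : ℕ} (ht : 1 ≤ t) : Distributed (24 * t) (setA t) (setB t) := by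
  have ht0 : (t : ℝ) ≠ 0 := by positivity
  intro b hb b' hb' hne
  obtain ⟨j, rfl, hj⟩ := mem_setB hb
  obtain ⟨j', rfl, hj'⟩ := mem_setB hb'
  have hjj : j ≠ j' := fun h => hne (by rw [h])
  rcases Int.even_or_odd (j - j') with he | ho
  · right
    intro b₂ hb₂ b₂' hb₂'
    obtain ⟨i, rfl, -⟩ := mem_setB hb₂
    obtain ⟨i', rfl, -⟩ := mem_setB hb₂'
    rw [nuHat_zero ht]
    right
    have h4 : j - j' = 4 ∨ j - j' = -4 := by
      rcases he with ⟨r, hr⟩
      omega
    rcases h4 with h4 | h4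
    · refine ⟨3 * t * (i - i'), ?_⟩
      have h5 : (j : ℝ) = j' + 4 := by exact_mod_cast (by omega : j = j' + 4)
      push_cast
      rw [h5]
      field_simp
      ring
    · refine ⟨3 * t * (i - i') - 1, ?_⟩
      have h5 : (j : ℝ) = j' - 4 := by exact_mod_cast (by omega : j = j' - 4)
      push_cast
      rw [h5]
      field_simp
      ring
  · left
    rw [nuHat_zero ht]
    left
    obtain ⟨k, hk⟩ := ho
    refine ⟨k, ?_⟩
    have h5 : (j : ℝ) = j' + (2 * k + 1) := by exact_mod_cast (by omega : j = j' + (2 * k + 1))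
    push_cast
    rw [h5]
    field_simp
    ring

theorem not_half {k m : ℤ} (h : (m : ℝ) = k + 1 / 2) : False := by
  have h1 : (2 * m : ℝ) = 2 * k + 1 := by linarith
  have h2 : 2 * m = 2 * k + 1 := by exact_mod_cast h1
  omega

theorem not_spectral {t : ℕ} (ht : 1 ≤ t) : ¬ SpectralPair (24 * t) (setA t) (setB t) := by
  have ht0 : (t : ℝ) ≠ 0 := by positivity
  have ht1 : (1 : ℤ) ≤ t := by exact_mod_cast ht
  intro h
  have h1 := h 0 (by simp [setB]) (16 * t) (by simp [setB]) (by omega)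
  rw [spectral_iff ht] at h1
  rcases h1 with ⟨k, hk⟩ | ⟨k, hk⟩
  · have h2 : 3 * ((((16 * (t : ℤ) : ℤ) : ℝ) - (0 : ℤ)) / ((24 * t : ℕ) : ℝ)) = ((2 : ℤ) : ℝ) := by
      push_cast
      rw [sub_zero]
      field_simp
      ring
    rw [h2] at hk
    exact not_half hk
  · have h2 : 18 * (t : ℝ) * ((((16 * (t : ℤ) : ℤ) : ℝ) - (0 : ℤ)) / ((24 * t : ℕ) : ℝ)) =
        ((12 * t : ℤ) : ℝ) := by
      push_cast
      rw [sub_zero]
      field_simp
      ring
    rw [h2] at hk
    exact not_half hk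

theorem not_spectral_sq {t : ℕ} (ht : 1 ≤ t) :
    ¬ SpectralPair ((24 * t) ^ 2) (setA t) (setB t) := by
  have ht0 : (t : ℝ) ≠ 0 := by positivity
  have htr : (1 : ℝ) ≤ t := by exact_mod_cast ht
  have ht1 : (1 : ℤ) ≤ t := by exact_mod_cast ht
  intro h
  have h1 := h 0 (by simp [setB]) (4 * t) (by simp [setB]) (by omega)
  rw [spectral_iff ht] at h1
  rcases h1 with ⟨k, hk⟩ | ⟨k, hk⟩
  · have h2 : 3 * ((((4 * (t : ℤ) : ℤ) : ℝ) - (0 : ℤ)) / (((24 * t) ^ 2 : ℕ) : ℝ)) =
        1 / (48 * t) := by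
      push_cast
      rw [sub_zero]
      field_simp
      ring
    rw [h2] at hk
    have h3 : 1 / (48 * (t : ℝ)) ≤ 1 / 48 := by
      apply one_div_le_one_div_of_le (by norm_num)
      linarith
    have h4 : 0 < 1 / (48 * (t : ℝ)) := by positivity
    have h5 : (-1 : ℝ) < k := by linarith
    have h6 : (k : ℝ) < 0 := by linarith
    have h7 : (-1 : ℤ) < k := by exact_mod_cast h5
    have h8 : k < 0 := by exact_mod_cast h6
    omega
  · have h2 : 18 * (t : ℝ) * ((((4 * (t : ℤ) : ℤ) : ℝ) - (0 : ℤ)) / (((24 * t) ^ 2 : ℕ) : ℝ)) =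
        1 / 8 := by
      push_cast
      rw [sub_zero]
      field_simp
      ring
    rw [h2] at hk
    have h5 : (-1 : ℝ) < k := by linarith
    have h6 : (k : ℝ) < 0 := by linarith
    have h7 : (-1 : ℤ) < k := by exact_mod_cast h5
    have h8 : k < 0 := by exact_mod_cast h6
    omega

/-- **For every positive multiple `M` of 24 there is a distributed spectral pair in `{0, ..., M - 1}`
which is a spectral pair neither in `ℤ_M` nor in `ℤ_(M²)`.** -/
theorem result : ∀ M : ℕ, 0 < M → 24 ∣ M → ∃ A B : Finset ℤ,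
    (∀ a ∈ A, 0 ≤ a ∧ a < M) ∧ (∀ b ∈ B, 0 ≤ b ∧ b < M) ∧ A.card = B.card ∧ 1 < A.card ∧
    A.card < M ∧ Distributed M A B ∧ ¬ SpectralPair M A B ∧ ¬ SpectralPair (M ^ 2) A B := by
  rintro M hM ⟨t, rfl⟩
  have ht : 1 ≤ t := by omega
  have ht1 : (1 : ℤ) ≤ t := by exact_mod_cast ht
  refine ⟨setA t, setB t, ?_, ?_, ?_, ?_, ?_, distributed ht, not_spectral ht, not_spectral_sq ht⟩
  · intro a ha
    unfold setA at ha
    simp only [Finset.mem_insert, Finset.mem_singleton] at ha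
    push_cast
    omega
  · intro b hb
    unfold setB at hb
    simp only [Finset.mem_insert, Finset.mem_singleton] at hb
    push_cast
    omega
  · rw [card_setA ht, card_setB ht]
  · rw [card_setA ht]; norm_num
  · rw [card_setA ht]; omega

end Pool.Agent.Results.MP_2c87a3_an.MultiplesOfTwentyFour
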